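import Pool.Agent.H570.WS.NoMlur

set_option autoImplicit false

namespace Pool.Agent.Results.MP_02b174_an.NoMLURMetr

/-- There is a real Banach space with a strictly convex norm whose unit sphere is metrizable in the
weak topology, such that no equivalent norm is midpoint locally uniformly rotund. -/
theorem result : ∃ (X : Type) (_ : NormedAddCommGroup X) (_ : NormedSpace ℝ X),
    CompleteSpace X ∧ StrictConvexSpace ℝ X ∧
    TopologicalSpace.MetrizableSpace ↥((toWeakSpace ℝ X) '' Metric.sphere (0 : X) 1) ∧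
    ¬ ∃ N : Seminorm ℝ X, (∃ c C : ℝ, 0 < c ∧ 0 < C ∧ ∀ x : X, c * ‖x‖ ≤ N x ∧ N x ≤ C * ‖x‖) ∧
      ∀ x : X, N x = 1 → ∀ u : ℕ → X, (∀ n, N (u n) ≤ 1) →
        Filter.Tendsto (fun n => N (x + u n)) Filter.atTop (nhds 1) →
        Filter.Tendsto (fun n => N (x - u n)) Filter.atTop (nhds 1) →
        Filter.Tendsto (fun n => N (u n)) Filter.atTop (nhds 0) := by
  refine ⟨Pool.Agent.H570.WS.Z Pool.Agent.H570.WS.hKK, inferInstance, inferInstance,
    Pool.Agent.H570.WS.B1.complete_Z Pool.Agent.H570.WS.hKK,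
    Pool.Agent.H570.WS.B1.strict_Z Pool.Agent.H570.WS.hKK,
    Pool.Agent.H570.WS.B2.metr_Z Pool.Agent.H570.WS.hKK
      (fun U v v0 h1 h2 ε hε => Pool.Agent.H570.WS.kadecY U v v0 h1 h2 ε hε)
      (fun l v v0 M hb h1 ξ => Pool.Agent.H570.WS.A17.tends_all l v v0 M hb h1 ξ), ?_⟩
  rintro ⟨N, ⟨c, C, hc, hC, hN⟩, hmlur⟩
  exact Pool.Agent.H570.WS.no_mlurZ N hc hC hN hmlur

end Pool.Agent.Results.MP_02b174_an.NoMLURMetr
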